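import Pool.Agent.E8helper50.SR.S

/-! # Project SR: EPM -/

set_option autoImplicit false

universe u

namespace Pool.Agent.E8helper63.SR

open Pool.Agent.E8helper50.SR

theorem t_EPM : S_EPS.{u} → S_EPM.{u} := by
  intro hE F _ A f p a D ha hD hne
  classical
  induction D using Finset.induction_on with
  | empty =>
    refine ⟨A, LinearMap.id, fun _ => 0, fun _ _ => rfl, fun _ _ h => h, fun _ h => h,
      fun _ => (A.gr 1).zero_mem, ?_⟩
    simpa using hne
  | insert j D hj ih =>
    obtain ⟨A', ι, y, h1, h2, h3, h4, h5⟩ := ih (fun i hi => hD i (Finset.mem_insert_of_mem hi))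
    obtain ⟨A'', ι', g1, g2, g3, g4⟩ := hE F A'
    obtain ⟨z, hz, hz2⟩ := g4 f (fun i => if i ∈ D then 1 else p i)
      (fun i => if i ∈ D then y i else ι (a i)) j (by
        intro i
        by_cases hi : i ∈ D
        · simp only [if_pos hi]; exact h4 i
        · simp only [if_neg hi]; exact h2 _ _ (ha i)) (by
        simp only [if_neg hj]
        exact hD j (Finset.mem_insert_self _ _)) h5
    refine ⟨A'', ι'.comp ι, fun i => if i = j then z else ι' (y i), fun u v => ?_, fun i x hx => ?_,
      fun g hg => g3 g (h3 g hg), fun i => ?_, ?_⟩
    · simp only [LinearMap.comp_apply]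
      rw [h1, g1]
    · exact g2 _ _ (h2 _ _ hx)
    · by_cases hi : i = j
      · simp only [if_pos hi]; exact hz
      · simp only [if_neg hi]; exact g2 _ _ (h4 i)
    · have e1 : (fun i => if i ∈ insert j D then (1 : ZMod 2) else p i) =
          Function.update (fun i => if i ∈ D then (1 : ZMod 2) else p i) j 1 := by
        funext i
        by_cases hi : i = j
        · subst hi; simp
        · rw [Function.update_of_ne hi]
          simp [Finset.mem_insert, hi]
      have e2 : (fun i => if i ∈ insert j D then (if i = j then z else ι' (y i)) else
          (ι'.comp ι) (a i)) =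
          Function.update (fun i => ι' (if i ∈ D then y i else ι (a i))) j z := by
        funext i
        by_cases hi : i = j
        · subst hi; simp
        · rw [Function.update_of_ne hi]
          by_cases hiD : i ∈ D
          · simp [Finset.mem_insert, hi, hiD]
          · simp [Finset.mem_insert, hi, hiD]
      rw [e1, e2]
      exact hz2

end Pool.Agent.E8helper63.SR
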