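import Pool.Agent.E8helper50.SR.S

/-! # Project SR: RS and MNF -/

set_option autoImplicit false

universe u

namespace Pool.Agent.E8helper63.SR

open Pool.Agent.E8helper50.SR

/-- ring homomorphisms and products -/
lemma map_wprod {R S : Type*} [NonUnitalRing R] [NonUnitalRing S] (e : R →ₙ+* S) :
    ∀ (n : ℕ) (x : Fin (n + 1) → R), e (wprod n x) = wprod n (fun i => e (x i)) := by
  intro n
  induction n with
  | zero => intro x; rfl
  | succ n ih =>
    intro x
    simp only [wprod, map_mul]
    rw [ih]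

theorem t_RS : S_RS.{u} := by
  intro F K _ _ _ M
  letI i1 : Module F M.carrier := Module.compHom M.carrier (algebraMap F K)
  have hsm : ∀ (c : F) (x : M.carrier), c • x = (algebraMap F K c) • x := fun _ _ => rfl
  haveI i2 : IsScalarTower F M.carrier M.carrier :=
    ⟨fun c x y => by rw [smul_eq_mul, smul_eq_mul, hsm, hsm, smul_mul_assoc]⟩
  haveI i3 : SMulCommClass F M.carrier M.carrier :=
    ⟨fun c x y => by rw [smul_eq_mul, smul_eq_mul, hsm, hsm, mul_smul_comm]⟩
  let G : ZMod 2 → Submodule F M.carrier := fun i =>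
    { carrier := M.gr i
      add_mem' := fun ha hb => (M.gr i).add_mem ha hb
      zero_mem' := (M.gr i).zero_mem
      smul_mem' := fun c x hx => (M.gr i).smul_mem (algebraMap F K c) hx }
  have hG : ∀ i x, x ∈ G i ↔ x ∈ M.gr i := fun _ _ => Iff.rfl
  let M' : SAlg F :=
    { carrier := M.carrier
      ring := M.ring
      mod := i1
      tow := i2
      com := i3
      gr := G
      compl := by
        refine IsCompl.of_eq ?_ ?_
        · rw [Submodule.eq_bot_iff]
          intro x hx
          have h1 : x ∈ M.gr 0 ⊓ M.gr 1 := ⟨hx.1, hx.2⟩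
          rw [M.compl.inf_eq_bot] at h1
          exact (Submodule.mem_bot K).1 h1
        · rw [Submodule.eq_top_iff']
          intro x
          have h1 : x ∈ M.gr 0 ⊔ M.gr 1 := by
            rw [M.compl.sup_eq_top]; exact Submodule.mem_top
          obtain ⟨y, hy, z, hz, rfl⟩ := Submodule.mem_sup.1 h1
          exact Submodule.add_mem_sup (S := G 0) (T := G 1) hy hz
      mul_mem := fun i j a b ha hb => M.mul_mem i j a b ha hb }
  let e : M →ₙ+* M' :=
    { toFun := fun x => x
      map_mul' := fun _ _ => rfl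
      map_zero' := rfl
      map_add' := fun _ _ => rfl }
  have hev : ∀ (f : MPoly F) (p : Fin (f.n + 1) → ZMod 2) (a : Fin (f.n + 1) → M),
      e (sev (f.map : MPoly K) p a) = sev f p (fun i => e (a i)) := by
    intro f p a
    have h1 : e (sev (f.map : MPoly K) p a) = sev (f.map : MPoly K) p a := rfl
    have h2 : sev f p (fun i => e (a i)) =
        ∑ σ : Equiv.Perm (Fin (f.n + 1)), (algebraMap F K (f.c σ * ((ksgn p σ : ℤ) : F))) •
          wprod f.n (fun i => a (σ i)) := rfl
    rw [h1, h2]
    unfold sev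
    refine Finset.sum_congr rfl fun σ _ => ?_
    rw [map_mul, map_intCast]
    rfl
  refine ⟨M', e, fun _ _ h => h, fun i x hx => hx, ?_, hev⟩
  intro f hf p a ha
  have h := hf p a ha
  have h2 := hev f p a
  rw [h] at h2
  exact h2.symm

/-- lifts -/
lemma map_lift {R S α : Type*} [NonUnitalRing R] [NonUnitalRing S] (e : R →ₙ+* S) (x : α → R)
    (w : FreeSemigroup α) :
    e (FreeSemigroup.lift x w) = FreeSemigroup.lift (fun i => e (x i)) w := by
  induction w using FreeSemigroup.recOnMul with
  | ih1 a => simp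
  | ih2 a y h1 h2 => rw [map_mul, map_mul, map_mul, h1, h2]

theorem t_MNF : S_ASM.{u} → S_BC.{u} → S_RS.{u} → S_MNF.{u} := by
  intro hA hB hR F _ A _
  obtain ⟨A', hfin, hsat⟩ := hB F (AlgebraicClosure F) A
  obtain ⟨N, hN⟩ := hA (AlgebraicClosure F) A'
  refine ⟨N, fun f hf => ?_⟩
  obtain ⟨M, hM, x, hx, w, hw⟩ := hN f.map fun h => hf ((hsat f).2 h)
  obtain ⟨M', e, hinj, hgr, hs, hev⟩ := hR F (AlgebraicClosure F) M
  refine ⟨M', fun g hg => hs g (hM _ ((hsat g).1 hg)), fun i => e (x i),
    fun i => hgr _ _ (hx i), w, ?_⟩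
  intro h0
  apply hw
  apply hinj
  have h1 := hev f (fun i => wpar (w i)) (fun i => FreeSemigroup.lift x (w i))
  have h2 : ∀ i, e (FreeSemigroup.lift x (w i)) = FreeSemigroup.lift (fun i => e (x i)) (w i) :=
    fun i => map_lift e x (w i)
  rw [map_zero]
  refine h1.trans (Eq.trans ?_ h0)
  congr 1
  funext i
  exact h2 i

end Pool.Agent.E8helper63.SR
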